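import Mathlib
import Pool.Agent.H374Z.FB.Main

/-!
# NP-intermediate constraint satisfaction problems of finitely bounded structures

Complexity notions are those of `Pool.Agent.NPC.Defs` and `Pool.Agent.NPC.Classes`: polynomial
time is the polynomial time of the Turing machines of Mathlib on bit strings, `NP` is defined by
certificates and hardness is under polynomial-time many-one reductions.

The template forces, along the directed paths of an input, the run of a cellular automaton that
computes a polynomial-time hole function of Ladner type on the (unary) length `n` of a marked
path; only if the run accepts must a 3-CNF formula on the `n` levels of the path be satisfied.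
-/

namespace Pool.Agent.Results.MP_9e35a6_lc.Intermediate

open Pool.Agent.NPC Pool.Agent.H374Z.FB

/-- If `P ≠ NP`, there is a finitely bounded structure whose constraint satisfaction problem is in
`NP`, not in `P` and not `NP`-hard. -/
theorem result : (¬ ∀ L, InNP L → InP L) → ∃ (τ : List ℕ) (Y : Type) (A : Str τ Y),
    FinBounded A ∧ InNP (CSP A) ∧ ¬ InP (CSP A) ∧ ¬ NPHard (CSP A) :=
  main

end Pool.Agent.Results.MP_9e35a6_lc.Intermediate
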